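import Mathlib

/-!
# Total domination versus matching number with two vertices outside triangles (MP_7cc4cd_co, Q1)

The graph on 11 vertices with the edges `03, 07, 37` (a triangle), `34, 45, 46, 56` (a triangle
hanging at `3`), `78, 89, 8 10, 9 10` (a triangle hanging at `7`) and `01, 12` (a path hanging
at `0`) is connected and all its vertices but `1, 2` lie in triangles. A total dominating set has at
least two vertices in each of the sets `{0, 1, 2}`, `{3, 4, 5, 6}`, `{7, 8, 9, 10}`, so that the
total domination number is at least 6, while the matching number is at most 5.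
-/

set_option autoImplicit false

namespace Pool.Agent.Results.MP_7cc4cd_co.TwoExceptions

variable {V : Type} [Fintype V] [DecidableEq V]

/-- The vertex `v` lies in a triangle. -/
def InTriangle (G : SimpleGraph V) (v : V) : Prop :=
  ∃ a b : V, G.Adj v a ∧ G.Adj v b ∧ G.Adj a b

/-- The class `𝒢_k`: every connected component has at least four vertices and all but at most `k`
vertices lie in a triangle. -/
def InClass (k : ℕ) (G : SimpleGraph V) : Prop :=
  (∀ c : G.ConnectedComponent, 4 ≤ c.supp.ncard) ∧ {v : V | ¬ InTriangle G v}.ncard ≤ k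

/-- Every vertex has a neighbour in `S`. -/
def TotalDominating (G : SimpleGraph V) (S : Finset V) : Prop := ∀ v, ∃ u ∈ S, G.Adj v u

/-- The total domination number. -/
noncomputable def gammaT (G : SimpleGraph V) : ℕ :=
  sInf {k | ∃ S : Finset V, TotalDominating G S ∧ S.card = k}

/-- `M` is a matching: a set of pairwise disjoint edges. -/
def IsMatching (G : SimpleGraph V) (M : Finset (Sym2 V)) : Prop :=
  (∀ e ∈ M, e ∈ G.edgeSet) ∧ ∀ e ∈ M, ∀ f ∈ M, ∀ v, v ∈ e → v ∈ f → e = f

/-- The matching number. -/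
noncomputable def matchingNum (G : SimpleGraph V) : ℕ :=
  sSup {k | ∃ M : Finset (Sym2 V), IsMatching G M ∧ M.card = k}

theorem two_mul_card_le {G : SimpleGraph V} {M : Finset (Sym2 V)} (hM : IsMatching G M) :
    2 * M.card ≤ Fintype.card V := by
  have h : (M.biUnion fun e => e.toFinset).card = ∑ e ∈ M, e.toFinset.card := by
    refine Finset.card_biUnion ?_
    intro e he f hf hne
    rw [Function.onFun, Finset.disjoint_left]
    intro v h1 h2
    rw [Sym2.mem_toFinset] at h1 h2
    exact hne (hM.2 e he f hf v h1 h2)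
  have h2 : ∀ e ∈ M, e.toFinset.card = 2 := by
    intro e he
    refine Sym2.card_toFinset_of_not_isDiag e ?_
    exact G.not_isDiag_of_mem_edgeSet (hM.1 e he)
  rw [Finset.sum_congr rfl h2, Finset.sum_const, smul_eq_mul] at h
  have h3 := Finset.card_le_univ (M.biUnion fun e => e.toFinset)
  omega

theorem matchingNum_le {G : SimpleGraph V} {k : ℕ} (h : Fintype.card V ≤ 2 * k + 1) :
    matchingNum G ≤ k := by
  refine csSup_le ⟨0, ∅, ⟨by simp, by simp⟩, rfl⟩ ?_
  rintro l ⟨M, hM, rfl⟩
  have := two_mul_card_le hM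
  omega

/-- the neighbour lists -/
def nb : Fin 11 → List (Fin 11) :=
  ![[1, 3, 7], [0, 2], [1], [0, 4, 7], [3, 5, 6], [4, 6], [4, 5], [0, 3, 8], [7, 9, 10], [8, 10],
    [8, 9]]

/-- the graph -/
def H : SimpleGraph (Fin 11) where
  Adj i j := j ∈ nb i
  symm := ⟨by decide⟩
  loopless := ⟨by decide⟩

instance : DecidableRel H.Adj := fun i j => inferInstanceAs (Decidable (j ∈ nb i))

theorem connected_H : H.Connected := by
  have h : ∀ v, H.Reachable v 0 := by
    have e1 : H.Reachable 1 0 := SimpleGraph.Adj.reachable (by decide)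
    have e3 : H.Reachable 3 0 := SimpleGraph.Adj.reachable (by decide)
    have e7 : H.Reachable 7 0 := SimpleGraph.Adj.reachable (by decide)
    have e2 : H.Reachable 2 0 := (SimpleGraph.Adj.reachable (by decide : H.Adj 2 1)).trans e1
    have e4 : H.Reachable 4 0 := (SimpleGraph.Adj.reachable (by decide : H.Adj 4 3)).trans e3
    have e5 : H.Reachable 5 0 := (SimpleGraph.Adj.reachable (by decide : H.Adj 5 4)).trans e4
    have e6 : H.Reachable 6 0 := (SimpleGraph.Adj.reachable (by decide : H.Adj 6 4)).trans e4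
    have e8 : H.Reachable 8 0 := (SimpleGraph.Adj.reachable (by decide : H.Adj 8 7)).trans e7
    have e9 : H.Reachable 9 0 := (SimpleGraph.Adj.reachable (by decide : H.Adj 9 8)).trans e8
    have e10 : H.Reachable 10 0 := (SimpleGraph.Adj.reachable (by decide : H.Adj 10 8)).trans e8
    intro v
    fin_cases v
    · exact SimpleGraph.Reachable.refl _
    · exact e1
    · exact e2
    · exact e3
    · exact e4
    · exact e5
    · exact e6
    · exact e7
    · exact e8
    · exact e9
    · exact e10
  exact ⟨fun u v => (h u).trans (h v).symm⟩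

theorem key (S : Finset (Fin 11)) (a b c d : Fin 11) (hab : a ≠ b) (hbc : b ≠ c) (hbd : b ≠ d)
    (hcd : c ≠ d) (h1 : ∃ u, (u = a ∨ u = c ∨ u = d) ∧ u ∈ S)
    (h2 : ∃ u, (u = b ∨ u = d) ∧ u ∈ S) (h3 : ∃ u, (u = b ∨ u = c) ∧ u ∈ S) :
    2 ≤ (S ∩ {a, b, c, d}).card := by
  have mem : ∀ u, u ∈ S → (u = a ∨ u = b ∨ u = c ∨ u = d) → u ∈ S ∩ {a, b, c, d} := by
    intro u h1 h2
    simp only [Finset.mem_inter, Finset.mem_insert, Finset.mem_singleton]
    exact ⟨h1, h2⟩
  have : 1 < (S ∩ {a, b, c, d}).card := by
    rw [Finset.one_lt_card]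
    obtain ⟨x, hx, hxS⟩ := h1
    obtain ⟨y, hy, hyS⟩ := h2
    obtain ⟨z, hz, hzS⟩ := h3
    have my := mem y hyS (hy.elim (fun h => Or.inr (Or.inl h)) (fun h => Or.inr (Or.inr (Or.inr h))))
    have mz := mem z hzS (hz.elim (fun h => Or.inr (Or.inl h)) (fun h => Or.inr (Or.inr (Or.inl h))))
    have mx := mem x hxS (hx.elim Or.inl (fun h => Or.inr (Or.inr h)))
    by_cases hyz : y = z
    · have hyb : y = b := by
        rcases hy with h | h
        · exact h
        · rcases hz with h' | h'
          · rw [hyz, h']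
          · exact absurd (h.symm.trans (hyz.trans h')) (Ne.symm hcd)
      refine ⟨x, mx, y, my, ?_⟩
      rw [hyb]
      rcases hx with h | h | h
      · rw [h]; exact hab
      · rw [h]; exact Ne.symm hbc
      · rw [h]; exact Ne.symm hbd
    · exact ⟨y, my, z, mz, hyz⟩
  exact this

theorem six_le (S : Finset (Fin 11)) (hS : TotalDominating H S) : 6 ≤ S.card := by
  have h0 : ∀ v : Fin 11, ∃ u, u ∈ nb v ∧ u ∈ S := fun v => by
    obtain ⟨u, hu, h⟩ := hS v
    exact ⟨u, h, hu⟩
  have h2 := h0 2
  have h1 := h0 1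
  have h4 := h0 4
  have h5 := h0 5
  have h6 := h0 6
  have h8 := h0 8
  have h9 := h0 9
  have h10 := h0 10
  simp only [nb, Matrix.cons_val, List.mem_cons, List.not_mem_nil, or_false] at h1 h2 h4 h5 h6 h8 h9 h10
  -- split `S` into three parts
  have hA : 2 ≤ (S ∩ {0, 1, 2}).card := by
    have : 1 < (S ∩ {0, 1, 2}).card := by
      rw [Finset.one_lt_card]
      obtain ⟨u, rfl, hu⟩ := h2
      obtain ⟨w, hw | hw, hw'⟩ := h1
      · subst hw
        exact ⟨1, by simp [hu], 0, by simp [hw'], by decide⟩
      · subst hw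
        exact ⟨1, by simp [hu], 2, by simp [hw'], by decide⟩
    exact this
  have hB : 2 ≤ (S ∩ {3, 4, 5, 6}).card :=
    key S 3 4 5 6 (by decide) (by decide) (by decide) (by decide) h4 h5 h6
  have hC : 2 ≤ (S ∩ {7, 8, 9, 10}).card :=
    key S 7 8 9 10 (by decide) (by decide) (by decide) (by decide) h8 h9 h10
  have hd1 : Disjoint (S ∩ {0, 1, 2}) (S ∩ {3, 4, 5, 6}) :=
    Finset.disjoint_of_subset_left Finset.inter_subset_right
      (Finset.disjoint_of_subset_right Finset.inter_subset_right (by decide))
  have hd2 : Disjoint ((S ∩ {0, 1, 2}) ∪ (S ∩ {3, 4, 5, 6})) (S ∩ {7, 8, 9, 10}) := by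
    rw [Finset.disjoint_union_left]
    exact ⟨Finset.disjoint_of_subset_left Finset.inter_subset_right
      (Finset.disjoint_of_subset_right Finset.inter_subset_right (by decide)),
      Finset.disjoint_of_subset_left Finset.inter_subset_right
      (Finset.disjoint_of_subset_right Finset.inter_subset_right (by decide))⟩
  have hsub : ((S ∩ {0, 1, 2}) ∪ (S ∩ {3, 4, 5, 6})) ∪ (S ∩ {7, 8, 9, 10}) ⊆ S :=
    Finset.union_subset (Finset.union_subset Finset.inter_subset_left Finset.inter_subset_left)
      Finset.inter_subset_left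
  have := Finset.card_le_card hsub
  rw [Finset.card_union_of_disjoint hd2, Finset.card_union_of_disjoint hd1] at this
  omega

/-- Q1 has a negative answer: there is a (connected) graph in `𝒢_2` with `γ_t > α'`. -/
theorem result : ∃ (V : Type) (_ : Fintype V) (_ : DecidableEq V) (G : SimpleGraph V),
    G.Connected ∧ InClass 2 G ∧ matchingNum G < gammaT G := by
  refine ⟨Fin 11, inferInstance, inferInstance, H, connected_H, ⟨?_, ?_⟩, ?_⟩
  · intro c
    have hc : c.supp = Set.univ := by
      rw [Set.eq_univ_iff_forall]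
      intro v
      rw [SimpleGraph.ConnectedComponent.mem_supp_iff]
      induction c using SimpleGraph.ConnectedComponent.ind with
      | _ w => exact SimpleGraph.ConnectedComponent.sound (connected_H v w)
    rw [hc, Set.ncard_univ]
    simp
  · have h : {v : Fin 11 | ¬ InTriangle H v} ⊆ (({1, 2} : Finset (Fin 11)) : Set (Fin 11)) := by
      have h1 : ∀ v : Fin 11, v ∉ ({1, 2} : Finset (Fin 11)) →
          ∃ a b : Fin 11, H.Adj v a ∧ H.Adj v b ∧ H.Adj a b := by decide +kernel
      intro v hv
      by_contra hcon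
      exact hv (h1 v hcon)
    refine (Set.ncard_le_ncard h (Finset.finite_toSet _)).trans ?_
    rw [Set.ncard_coe_finset]
    decide
  · have h1 : matchingNum H ≤ 5 := matchingNum_le (by simp)
    have h2 : 6 ≤ gammaT H := by
      refine le_csInf ⟨11, Finset.univ, ?_, by simp⟩ ?_
      · have : ∀ v : Fin 11, ∃ u ∈ (Finset.univ : Finset (Fin 11)), H.Adj v u := by decide +kernel
        exact this
      · rintro k ⟨S, hS, rfl⟩
        exact six_le S hS
    omega

end Pool.Agent.Results.MP_7cc4cd_co.TwoExceptions
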